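import Pool.Agent.Lib.MP_a0a351_co.TopE2

/-!
Reay's conjecture on the dimension of the set of Tverberg points, in full: for all `d`,
`r ≥ 2` and `0 ≤ k ≤ d`, the set of the `r`-divisible points of at least `(d+1)(r-1)+1+k` points of
`ℝ^d` in general position has at least the dimension `k`; moreover one Tverberg partition is enough.
-/

set_option autoImplicit false

open Module

namespace Pool.Agent.Results.MP_a0a351_co.Reay

/-- The finite set `X ⊂ ℝ^d` is in general position: no `d + 1` points of `X` lie on a common affine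
hyperplane `{x | ⟨b, x⟩ = c}` (`b ≠ 0`). -/
def GeneralPosition {d : ℕ} (X : Finset (EuclideanSpace ℝ (Fin d))) : Prop :=
  ∀ Y : Finset (EuclideanSpace ℝ (Fin d)), Y ⊆ X → Y.card = d + 1 →
    ∀ (b : EuclideanSpace ℝ (Fin d)) (c : ℝ), b ≠ 0 → ∃ y ∈ Y, inner ℝ b y ≠ c

/-- `A 0, …, A (r - 1)` is a partition of `X` into `r` pairwise disjoint sets. -/
def IsPartition {d r : ℕ} (X : Finset (EuclideanSpace ℝ (Fin d)))
    (A : Fin r → Finset (EuclideanSpace ℝ (Fin d))) : Prop :=
  (∀ i j, i ≠ j → Disjoint (A i) (A j)) ∧ ∀ x, x ∈ X ↔ ∃ i, x ∈ A i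

/-- The set `T_r(X)` of the `r`-divisible points of `X`: the points which lie in the convex hulls of
all the parts of some partition of `X` into `r` sets. -/
def divisiblePoints {d : ℕ} (r : ℕ) (X : Finset (EuclideanSpace ℝ (Fin d))) :
    Set (EuclideanSpace ℝ (Fin d)) :=
  {x | ∃ A : Fin r → Finset (EuclideanSpace ℝ (Fin d)), IsPartition X A ∧
    ∀ i, x ∈ convexHull ℝ (A i : Set (EuclideanSpace ℝ (Fin d)))}

/-- The dimension of a set `T ⊆ ℝ^d`: the largest dimension of a convex polytope (the convex hull of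
a nonempty finite set) contained in `T`; it is `⊥` (that is, `-1`) if `T` is empty. -/
noncomputable def polyDim {d : ℕ} (T : Set (EuclideanSpace ℝ (Fin d))) : WithBot ℕ∞ :=
  ⨆ F : {F : Finset (EuclideanSpace ℝ (Fin d)) // F.Nonempty ∧
    convexHull ℝ (F : Set (EuclideanSpace ℝ (Fin d))) ⊆ T},
    ((finrank ℝ (vectorSpan ℝ (F.1 : Set (EuclideanSpace ℝ (Fin d)))) : ℕ) : WithBot ℕ∞)

private lemma gp_indep {d : ℕ} {X : Finset (EuclideanSpace ℝ (Fin d))} (hX : GeneralPosition X)
    (Y : Finset (EuclideanSpace ℝ (Fin d))) (hY : Y ⊆ X) (hc : Y.card = d + 1) :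
    AffineIndependent ℝ (fun y : Y => (y : EuclideanSpace ℝ (Fin d))) := by
  have hcard : Fintype.card Y = d + 1 := by rw [Fintype.card_coe, hc]
  by_contra hcon
  have h1 := finrank_vectorSpan_range_le ℝ (fun y : Y => (y : EuclideanSpace ℝ (Fin d))) hcard
  have h2 : finrank ℝ (vectorSpan ℝ (Set.range
      (fun y : Y => (y : EuclideanSpace ℝ (Fin d))))) ≠ d := fun h =>
    hcon ((affineIndependent_iff_finrank_vectorSpan_eq ℝ _ hcard).2 h)
  have h3 : vectorSpan ℝ (Set.range (fun y : Y => (y : EuclideanSpace ℝ (Fin d)))) ≠ ⊤ := by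
    intro h
    apply h2
    rw [h, finrank_top, finrank_euclideanSpace_fin]
  have h4 : (vectorSpan ℝ (Set.range (fun y : Y => (y : EuclideanSpace ℝ (Fin d)))))ᗮ ≠ ⊥ := by
    intro h
    exact h3 (Submodule.orthogonal_eq_bot_iff.1 h)
  obtain ⟨b, hb, hb0⟩ := Submodule.exists_mem_ne_zero_of_ne_bot h4
  have hne : Y.Nonempty := by
    rw [← Finset.card_pos, hc]
    omega
  obtain ⟨y₀, hy₀⟩ := hne
  obtain ⟨y, hy, hyc⟩ := hX Y hY hc b (inner ℝ b y₀) hb0
  apply hyc
  have h5 : (y : EuclideanSpace ℝ (Fin d)) -ᵥ y₀ ∈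
      vectorSpan ℝ (Set.range (fun y : Y => (y : EuclideanSpace ℝ (Fin d)))) :=
    vsub_mem_vectorSpan ℝ ⟨⟨y, hy⟩, rfl⟩ ⟨⟨y₀, hy₀⟩, rfl⟩
  have h6 := (Submodule.mem_orthogonal' _ _).1 hb _ h5
  rw [vsub_eq_sub, inner_sub_right] at h6
  linarith

open Pool.Agent.MPa0a351 in
private lemma gp_gpv {d : ℕ} {X : Finset (EuclideanSpace ℝ (Fin d))} (hX : GeneralPosition X)
    (hcard : d + 1 ≤ X.card) : GPV d (fun x : X => (x : EuclideanSpace ℝ (Fin d))) := by
  classical
  intro T hT a ha hsum hy i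
  obtain ⟨T', hTT', hT'⟩ : ∃ T' : Finset X, T ⊆ T' ∧ T'.card = d + 1 := by
    obtain ⟨T', h1, -, h2⟩ := Finset.exists_subsuperset_card_eq (Finset.subset_univ T) hT
      (by rw [Finset.card_univ, Fintype.card_coe]; exact hcard)
    exact ⟨T', h1, h2⟩
  by_cases hi : i ∈ T'
  · have h0 := gp_indep hX (T'.image Subtype.val) (fun x hx => by
        obtain ⟨z, -, rfl⟩ := Finset.mem_image.1 hx
        exact z.2) (by
        rw [Finset.card_image_of_injective _ Subtype.val_injective, hT'])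
    let e : T' ↪ (T'.image Subtype.val : Finset (EuclideanSpace ℝ (Fin d))) :=
      ⟨fun z => ⟨(z.1 : EuclideanSpace ℝ (Fin d)), Finset.mem_image_of_mem _ z.2⟩, by
        intro z w h
        have h' : ((z.1 : X) : EuclideanSpace ℝ (Fin d)) = ((w.1 : X) : EuclideanSpace ℝ (Fin d)) :=
          (Subtype.mk.injEq _ _ _ _).mp h
        exact Subtype.ext (Subtype.ext h')⟩
    have h := h0.comp_embedding e
    have h' : AffineIndependent ℝ (fun z : T' => ((z : X) : EuclideanSpace ℝ (Fin d))) := h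
    rw [affineIndependent_iff] at h'
    have h1 : ∑ j ∈ (Finset.univ : Finset T'), a j = 0 := by
      rw [Finset.sum_coe_sort T' a, ← hsum]
      exact Finset.sum_subset (Finset.subset_univ _) (fun j _ hj => ha j (fun h => hj (hTT' h)))
    have h2 : ∑ j ∈ (Finset.univ : Finset T'), a j • ((j : X) : EuclideanSpace ℝ (Fin d)) = 0 := by
      rw [Finset.sum_coe_sort T' (fun j => a j • ((j : X) : EuclideanSpace ℝ (Fin d))), ← hy]
      exact Finset.sum_subset (Finset.subset_univ _)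
        (fun j _ hj => by rw [ha j (fun h => hj (hTT' h)), zero_smul])
    exact h' Finset.univ (fun j => a j) h1 h2 ⟨i, hi⟩ (Finset.mem_univ _)
  · exact ha i (fun h => hi (hTT' h))

/-- Reay's conjecture: let `r ≥ 2`, `0 ≤ k ≤ d`, and let `X` be a set of at least
`(d + 1) (r - 1) + 1 + k` points of `ℝ^d` in general position. Then `dim T_r(X) ≥ k`; moreover,
there is one partition of `X` into `r` sets such that the intersection of their convex hulls has
at least the dimension `k`, and contains `k + 1` affinely independent points. -/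
theorem result (d r k : ℕ) (hr : 2 ≤ r) (hk : k ≤ d)
    (X : Finset (EuclideanSpace ℝ (Fin d))) (hX : GeneralPosition X)
    (hc : (d + 1) * (r - 1) + 1 + k ≤ X.card) :
    (k : WithBot ℕ∞) ≤ polyDim (divisiblePoints r X) ∧
    ∃ A : Fin r → Finset (EuclideanSpace ℝ (Fin d)), IsPartition X A ∧
      (k : WithBot ℕ∞) ≤ polyDim (⋂ i, convexHull ℝ (A i : Set (EuclideanSpace ℝ (Fin d)))) ∧
      ∃ q : Fin (k + 1) → EuclideanSpace ℝ (Fin d), AffineIndependent ℝ q ∧
        ∀ j i, q j ∈ convexHull ℝ (A i : Set (EuclideanSpace ℝ (Fin d))) := by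
  classical
  obtain ⟨X', hX'X, hX'c⟩ := Finset.exists_subset_card_eq hc
  have hgp : GeneralPosition X' := fun Y hY => hX Y (hY.trans hX'X)
  have hge : d + 1 ≤ X'.card := by
    rw [hX'c]
    obtain ⟨s, rfl⟩ : ∃ s, r = s + 2 := ⟨r - 2, by omega⟩
    have : (d + 1) * 1 ≤ (d + 1) * (s + 2 - 1) := Nat.mul_le_mul_left _ (by omega)
    omega
  obtain ⟨f, q, hq, hqf⟩ := Pool.Agent.MPa0a351.Top.reay_full d r k (by simp) (by omega) hk
    (fun x : X' => (x : EuclideanSpace ℝ (Fin d))) (gp_gpv hgp hge)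
    (by rw [Fintype.card_coe, hX'c])
  have hr0 : 0 < r := by omega
  let g : EuclideanSpace ℝ (Fin d) → Fin r := fun x =>
    if h : x ∈ X' then f ⟨x, h⟩ else ⟨0, hr0⟩
  let A : Fin r → Finset (EuclideanSpace ℝ (Fin d)) := fun i => X.filter (fun x => g x = i)
  have hA : IsPartition X A := by
    refine ⟨fun i j hij => ?_, fun x => ⟨fun hx => ⟨g x, ?_⟩, ?_⟩⟩
    · rw [Finset.disjoint_left]
      intro x hxi hxj
      exact hij ((Finset.mem_filter.1 hxi).2.symm.trans (Finset.mem_filter.1 hxj).2)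
    · exact Finset.mem_filter.2 ⟨hx, rfl⟩
    · rintro ⟨i, hi⟩
      exact (Finset.mem_filter.1 hi).1
  have hsub : ∀ i : Fin r, (fun x : X' => (x : EuclideanSpace ℝ (Fin d))) '' {m : X' | f m = i} ⊆
      (A i : Set (EuclideanSpace ℝ (Fin d))) := by
    rintro i _ ⟨m, hm, rfl⟩
    rw [Finset.mem_coe, Finset.mem_filter]
    refine ⟨hX'X m.2, ?_⟩
    have h1 : g (m : EuclideanSpace ℝ (Fin d)) = f m := by
      simp only [g]
      rw [dif_pos m.2]
    rw [h1]
    exact hm
  have hqA : ∀ j i, q j ∈ convexHull ℝ (A i : Set (EuclideanSpace ℝ (Fin d))) := fun j i =>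
    convexHull_mono (hsub i) (hqf j i)
  have hqdim : ((finrank ℝ (vectorSpan ℝ
      ((Finset.univ.image q : Finset (EuclideanSpace ℝ (Fin d))) :
        Set (EuclideanSpace ℝ (Fin d)))) : ℕ) : WithBot ℕ∞) = k := by
    rw [show ((Finset.univ.image q : Finset (EuclideanSpace ℝ (Fin d))) :
        Set (EuclideanSpace ℝ (Fin d))) = Set.range q by simp]
    rw [hq.finrank_vectorSpan (by simp : Fintype.card (Fin (k + 1)) = k + 1)]
  have key : ∀ T : Set (EuclideanSpace ℝ (Fin d)),
      convexHull ℝ (Set.range q) ⊆ T → (k : WithBot ℕ∞) ≤ polyDim T := by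
    intro T hT
    rw [← hqdim]
    unfold polyDim
    refine le_iSup (fun F : {F : Finset (EuclideanSpace ℝ (Fin d)) // F.Nonempty ∧
      convexHull ℝ (F : Set (EuclideanSpace ℝ (Fin d))) ⊆ T} =>
      ((finrank ℝ (vectorSpan ℝ (F.1 : Set (EuclideanSpace ℝ (Fin d)))) : ℕ) : WithBot ℕ∞))
      ⟨Finset.univ.image q, ⟨q 0, Finset.mem_image_of_mem _ (Finset.mem_univ _)⟩, ?_⟩
    simpa using hT
  have hhull : ∀ i, convexHull ℝ (Set.range q) ⊆
      convexHull ℝ (A i : Set (EuclideanSpace ℝ (Fin d))) := by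
    intro i
    refine convexHull_min ?_ (convex_convexHull ℝ _)
    rintro _ ⟨j, rfl⟩
    exact hqA j i
  refine ⟨key _ fun x hx => ⟨A, hA, fun i => hhull i hx⟩, A, hA, key _ ?_, q, hq, hqA⟩
  exact Set.subset_iInter hhull

end Pool.Agent.Results.MP_a0a351_co.Reay
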